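import Pool.Agent.Helper84.E3.RS2
import Pool.Agent.Helper16.E3.Reg2
import Pool.Agent.Helper16.E3.Wt

/-!
# E-T (MP_12a1af_nt), phase 3: the top zone and the local choice, abstract form

`Geo` is the geometry of the small cells and of the zones together with the families of lists;
`Dt` the data of one scale: `H : ℕ → ℕ` (shift of Omega as a function of the random block),
`S : ℕ → ℕ` (shift of the zone as a function of the variable of Omega), `T` the window set.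
-/

variable [Pool.Agent.Helper29.E3.EpFn]

set_option autoImplicit false

open Finset

namespace Pool.Agent.E3

open Pool.Agent.ETS (Hash)

/-- what is used about the contents `Sd l` of a small cell of length `l` -/
structure SdOk (Sd : ℕ → Finset ℕ) (l : ℕ) : Prop where
  lt : ∀ u ∈ Sd l, u < 2 ^ l
  card : (Sd l).card ≤ 2 ^ (l / 2)
  pair : ∀ s, ((Sd l ×ˢ Sd l).filter (fun q => (q.1 + q.2) % 2 ^ l = s)).card ≤ 8
  high : ∀ s σ r, s ≤ l →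
    ((Sd l).filter (fun u => (u + σ) % 2 ^ l / 2 ^ (l - s) = r)).card ≤ 8 * 2 ^ (l / 2 - s)

/-- the geometry of the top zones, the families of lists, the numbers -/
structure Geo where
  /-- length of the small cell which starts at the grid point `s` -/
  ln : ℕ → ℕ
  /-- bottom of the zone of the scale `K` -/
  q : ℕ → ℕ
  /-- contents of the small cells of length `l` -/
  Sd : ℕ → Finset ℕ
  /-- the near threshold -/
  g : ℕ → ℕ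
  /-- length of the small cell Omega of the scale `K` -/
  lO : ℕ → ℕ
  /-- the scale `K` is in a T-state -/
  isT : ℕ → Prop
  /-- the lists of a scale in a T-state -/
  LF1 : ℕ → Finset (Finset ℕ)
  /-- the lists of a pair of scales which are both in T-states -/
  LF2 : ℕ → ℕ → Finset (Finset (ℕ × ℕ))
  /-- everything is for the scales `K ≥ K0` -/
  K0 : ℕ
  /-- large bound -/
  A : ℕ → ℕ
  /-- small bound -/
  b : ℕ → ℕ
  /-- `8 d K` is a lower bound for the lengths of the small cells -/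
  d : ℕ → ℕ
  /-- the families of lists have at most `2 ^ E K` elements -/
  E : ℕ → ℕ
  /-- upper bound for the lengths of the small cells -/
  l1 : ℕ → ℕ
  /-- the thinning: the window set of the scale `K` has `2 ^ (ρ / 2 - 1 - th K)` elements -/
  th : ℕ → ℕ

namespace Geo

variable (G : Geo)

/-- the next grid point -/
def nx (s : ℕ) : ℕ := s + G.ln s

/-- bottom of the window -/
def w (K : ℕ) : ℕ := G.nx (G.q K)

/-- length of the cell part of the zone -/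
def l (K : ℕ) : ℕ := G.ln (G.q K)

/-- length of the window -/
def ρ (K : ℕ) : ℕ := K - G.w K

/-- number of elements of a window set without thinning -/
def N0 (K : ℕ) : ℕ := 2 ^ (G.ρ K / 2 - 1)

/-- number of elements of the window set -/
def N (K : ℕ) : ℕ := 2 ^ (G.ρ K / 2 - 1 - G.th K)

open Classical in
/-- the lists of a pair of scales -/
noncomputable def LF (K K' : ℕ) : Finset (Finset (ℕ × ℕ)) :=
  if G.isT K then
    if G.isT K' then G.LF2 K K' else (G.LF1 K).image (fun Q => Q ×ˢ {0})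
  else
    if G.isT K' then (G.LF1 K').image (fun Q => {0} ×ˢ Q) else {{(0, 0)}}

/-- a near pair of scales -/
def Near (K K' : ℕ) : Prop := G.K0 ≤ K' ∧ K' ≤ K ∧ K < K' + G.g K

/-- the hypotheses -/
structure Ok : Prop where
  lo : ∀ K, G.K0 ≤ K → G.nx (G.w K) ≤ K
  hi : ∀ K, G.K0 ≤ K → K < G.nx (G.nx (G.w K))
  cells : ∀ K K', G.Near K K' → ∃ n, G.q K = G.nx^[n] (G.q K')
  sd : ∀ K s, G.K0 ≤ K → G.q K ≤ s → SdOk G.Sd (G.ln s)
  sdO : ∀ K, G.K0 ≤ K → SdOk G.Sd (G.lO K)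
  lO : ∀ K K', G.Near K K' → (G.isT K ∨ G.isT K') → G.lO K = G.lO K'
  ln_low : ∀ K s, G.K0 ≤ K → G.q K ≤ s → 8 * G.d K ≤ G.ln s
  ln_high : ∀ K s, G.K0 ≤ K → s ≤ K → G.ln s ≤ G.l1 K
  lO_low : ∀ K, G.K0 ≤ K → 8 * G.d K ≤ G.lO K
  lO_high : ∀ K, G.K0 ≤ K → G.lO K ≤ G.l1 K
  g_le : ∀ K, G.K0 ≤ K → G.g K ≤ 2 ^ G.l1 K
  g_pos : ∀ K, G.K0 ≤ K → 0 < G.g K
  card_LF : ∀ K K', G.Near K K' → (G.LF K K').card ≤ 2 ^ G.E K
  card_LF1 : ∀ K, G.K0 ≤ K → G.isT K → (G.LF1 K).card ≤ 2 ^ G.E K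
  card_mem : ∀ K K', G.Near K K' → ∀ L ∈ G.LF K K', L.card ≤ G.A K
  card_mem1 : ∀ K, G.K0 ≤ K → G.isT K → ∀ Q ∈ G.LF1 K, Q.card ≤ G.A K
  /-- in the lists of two scales in T-states each side determines the other -/
  inj : ∀ K K', G.Near K K' → G.isT K → G.isT K' → ∀ L ∈ G.LF2 K K', ∀ p ∈ L, ∀ p' ∈ L,
    (p.1 = p'.1 ∨ p.2 = p'.2) → p = p'
  /-- the lists of a scale with itself are symmetric -/
  symm : ∀ K, G.K0 ≤ K → G.isT K → ∀ L ∈ G.LF2 K K, ∀ p ∈ L, p.swap ∈ L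
  A_mono : Monotone G.A
  b_mono : Monotone G.b
  d_mono : Monotone G.d
  numA : ∀ K, G.K0 ≤ K → G.E K + 20 * G.l1 K + 400 ≤ G.A K * G.th K
  numb : ∀ K, G.K0 ≤ K → G.E K + 20 * G.l1 K + 400 ≤ G.b K * G.d K
  numd : ∀ K, G.K0 ≤ K → G.A K ≤ 2 ^ (G.d K - 20)
  d_pos : ∀ K, G.K0 ≤ K → 100 ≤ G.d K
  b_pos : ∀ K, G.K0 ≤ K → 100 ≤ G.b K
  b_le : ∀ K, G.K0 ≤ K → G.b K ≤ G.A K
  A_low : ∀ K, G.K0 ≤ K → 400 ≤ G.A K
  th_le : ∀ K, G.K0 ≤ K → G.th K ≤ G.d K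

end Geo

/-- the data of one scale -/
structure Dt where
  H : ℕ → ℕ
  S : ℕ → ℕ
  T : Finset ℕ

instance : Inhabited Dt := ⟨⟨fun _ => 0, fun _ => 0, ∅⟩⟩

section

variable (G : Geo) (D : ℕ → Dt)

/-- the part of the shift of the zone which is added to the window -/
def Sh (K ω : ℕ) : ℕ := (D K).S ω / 2 ^ G.l K

/-- the possible blocks and variables of Omega, if the digits of the sum at Omega are prescribed -/
def Lam (K K' : ℕ) (L : Finset (ℕ × ℕ)) (μ : ℕ) : Finset ((ℕ × ℕ) × (ℕ × ℕ)) :=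
  (L ×ˢ (G.Sd (G.lO K) ×ˢ G.Sd (G.lO K))).filter (fun a =>
    (a.2.1 + a.2.2 + (D K).H a.1.1 + (D K').H a.1.2) % 2 ^ G.lO K = μ % 2 ^ G.lO K)

open Classical in
/-- **(PH)** -/
structure PH (K : ℕ) : Prop where
  zero : ¬ G.isT K → (D K).H = fun _ => 0
  own : G.isT K → ∀ Q ∈ G.LF1 K, ∀ x, (Q.filter (fun τ => ∃ ω ∈ G.Sd (G.lO K),
    (ω + (D K).H τ) % 2 ^ G.lO K = x % 2 ^ G.lO K)).card < G.b K
  two : ∀ K', G.Near K K' → G.isT K → G.isT K' → K' ≠ K → ∀ L ∈ G.LF K K', ∀ x,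
    (L.filter (fun p => ∃ ω ∈ G.Sd (G.lO K),
      (ω + (D K).H p.1 + (D K').H p.2) % 2 ^ G.lO K = x % 2 ^ G.lO K)).card < G.b K
  self : G.isT K → ∀ L ∈ G.LF K K, ∀ x,
    (L.filter (fun p => ∃ ω ∈ G.Sd (G.lO K),
      (ω + (D K).H p.1 + (D K).H p.2) % 2 ^ G.lO K = x % 2 ^ G.lO K)).card < 3 * G.b K

open Classical in
/-- **(PS)** -/
structure PS (K : ℕ) : Prop where
  s0 : ∀ K', G.Near K K' → (G.isT K ∨ G.isT K') → K' ≠ K → G.q K = G.q K' → ∀ L ∈ G.LF K K',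
    ∀ μ n ε, ε < 2 → ((G.Sd (G.lO K)).filter (fun ω => ∃ a ∈ Lam G D K K' L μ, a.2.1 = ω ∧
      ∃ t' ∈ (D K').T, (Sh G D K ω + (t' + Sh G D K' a.2.2 + ε) % 2 ^ G.ρ K') % 2 ^ G.ρ K =
        n % 2 ^ G.ρ K)).card < G.b K
  s1 : ∀ K', G.Near K K' → (G.isT K ∨ G.isT K') → G.q K = G.w K' → ∀ L ∈ G.LF K K',
    ∀ μ n ε, ε < 2 → ((G.Sd (G.lO K)).filter (fun ω => ∃ a ∈ Lam G D K K' L μ, a.2.1 = ω ∧
      ∃ u ∈ G.Sd (G.l K), ∃ t' ∈ (D K').T, (u + (D K).S ω +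
        (t' + Sh G D K' a.2.2 + ε) % 2 ^ G.ρ K') % 2 ^ (K - G.q K) =
        n % 2 ^ (K - G.q K))).card < G.b K
  s2 : ∀ K', G.Near K K' → (G.isT K ∨ G.isT K') → K' < G.w K → ∀ L ∈ G.LF K K',
    ∀ μ n, ((G.Sd (G.lO K)).filter (fun ω => (∃ a ∈ Lam G D K K' L μ, a.2.1 = ω) ∧
      Sh G D K ω % 2 ^ G.ρ K = n % 2 ^ G.ρ K)).card < G.b K
  self : G.isT K → ∀ L ∈ G.LF K K, ∀ μ n, ((Lam G D K K L μ).filter (fun a =>
    (Sh G D K a.2.1 + Sh G D K a.2.2) % 2 ^ G.ρ K = n % 2 ^ G.ρ K)).card ≤ 100 * G.b K ^ 2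

open Classical in
/-- **(PT)** -/
structure PT (K : ℕ) : Prop where
  card : (D K).T.card = G.N K
  lt : ∀ t ∈ (D K).T, t < 2 ^ G.ρ K
  ta : ∀ b n σ1 σ2, ((D K).T.filter (fun t => ∃ c1 ∈ G.Sd (G.ln (G.w K)),
    ∃ c2 ∈ G.Sd (G.ln (G.nx (G.w K))), ((c1 + σ1) % 2 ^ G.ln (G.w K) +
      2 ^ G.ln (G.w K) * ((c2 + σ2) % 2 ^ G.ln (G.nx (G.w K))) + (t + b) % 2 ^ G.ρ K) %
      2 ^ (G.ln (G.w K) + G.ln (G.nx (G.w K))) =
      n % 2 ^ (G.ln (G.w K) + G.ln (G.nx (G.w K))))).card ≤ 2 * G.A K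
  tc : ∀ n, ((D K).T.filter (fun t => ∃ u ∈ G.Sd (G.ln (G.w K)),
    (u + t) % 2 ^ G.ln (G.w K) = n % 2 ^ G.ln (G.w K))).card ≤
    8 * 2 ^ ((G.ρ K - G.ln (G.w K)) / 2) + G.A K
  td : ∀ b y, ((D K).T.filter (fun t => ∃ u ∈ G.Sd (G.ln (G.w K)),
    u + (t + b) % 2 ^ G.ρ K = y)).card ≤ 2 * G.A K
  td' : G.ln (G.w K) + 4 * G.d K ≤ G.ρ K → ∀ b y, ((D K).T.filter (fun t =>
    ∃ u ∈ G.Sd (G.ln (G.w K)), u + (t + b) % 2 ^ G.ρ K = y)).card < G.b K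
  t00 : ∀ K', G.Near K K' → G.q K = G.q K' → ∀ b n,
    (((D K).T ×ˢ (D K').T).filter (fun p =>
      (p.1 + (p.2 + b) % 2 ^ G.ρ K') % 2 ^ G.ρ K = n % 2 ^ G.ρ K)).card ≤ 20 * G.A K
  t01 : ∀ K', G.Near K K' → G.q K = G.w K' → ∀ b n,
    ((D K).T.filter (fun t => ∃ u ∈ G.Sd (G.l K), ∃ t' ∈ (D K').T,
      (u + 2 ^ G.l K * t + (t' + b) % 2 ^ G.ρ K') % 2 ^ (K - G.q K) =
        n % 2 ^ (K - G.q K))).card ≤ (if K < K' + 4 * G.d K then 100 * G.A K else G.b K)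
  t0 : ∀ K', G.Near K K' → (G.isT K ∨ G.isT K') → K' ≠ K → G.q K = G.q K' → ∀ L ∈ G.LF K K',
    ∀ μ n ε, ε < 2 → ((D K).T.filter (fun t => ∃ a ∈ Lam G D K K' L μ, ∃ t' ∈ (D K').T,
      (t + Sh G D K a.2.1 + (t' + Sh G D K' a.2.2 + ε) % 2 ^ G.ρ K') % 2 ^ G.ρ K =
        n % 2 ^ G.ρ K)).card ≤ 100 * G.A K
  t1 : ∀ K', G.Near K K' → (G.isT K ∨ G.isT K') → G.q K = G.w K' → ∀ L ∈ G.LF K K',
    ∀ μ n ε, ε < 2 → ((D K).T.filter (fun t => ∃ a ∈ Lam G D K K' L μ,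
      ∃ u ∈ G.Sd (G.l K), ∃ t' ∈ (D K').T,
      (u + 2 ^ G.l K * t + (D K).S a.2.1 + (t' + Sh G D K' a.2.2 + ε) % 2 ^ G.ρ K') %
        2 ^ (K - G.q K) = n % 2 ^ (K - G.q K))).card ≤
        (if K < K' + 4 * G.d K then 1000 * G.A K else G.b K)
  t2 : ∀ K', G.Near K K' → (G.isT K ∨ G.isT K') → K' < G.w K → ∀ L ∈ G.LF K K',
    ∀ μ n, ((D K).T.filter (fun t => ∃ a ∈ Lam G D K K' L μ,
      (t + Sh G D K a.2.1) % 2 ^ G.ρ K = n % 2 ^ G.ρ K)).card < G.b K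
  self : G.isT K → ∀ L ∈ G.LF K K, ∀ μ n, (((D K).T ×ˢ (D K).T).filter (fun p =>
    ∃ a ∈ Lam G D K K L μ, (p.1 + p.2 + Sh G D K a.2.1 + Sh G D K a.2.2) % 2 ^ G.ρ K =
      n % 2 ^ G.ρ K)).card ≤ 200 * G.A K * G.b K

end

/-! ### the lists of regions of the top -/

/-- `n` small cells, the first one starts at `a` -/
def cl (G : Geo) : ℕ → ℕ → List Rg
  | _, 0 => []
  | a, n + 1 => cellRg a (G.ln a) (G.Sd (G.ln a)) :: cl G (G.nx a) n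

/-- the zone -/
def zn (G : Geo) (D : ℕ → Dt) (K : ℕ) : Rg := zoneRg (G.q K) K (G.l K) (G.Sd (G.l K)) (D K).T

/-- the number of pairs of variables of the top regions with the sum `ν` -/
def cnt (R R' : List Rg) (h h' : Hash) (ν : ℕ) : ℕ :=
  ((Vs R ×ˢ Vs R').filter (fun p => val R h p.1 + val R' h' p.2 = ν)).card

end Pool.Agent.E3
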