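import Pool.Agent.Helper84.E3.StepT
import Pool.Agent.Helper70.E3.StepS

/-!
# E-T (MP_12a1af_nt), phase 3: the local choice
-/

variable [Pool.Agent.Helper29.E3.EpFn]

set_option autoImplicit false

open Finset

namespace Pool.Agent.E3

variable {G : Geo}

/-- **The local choice.** -/
theorem exists_choice (hG : G.Ok) :
    ∃ D : ℕ → Dt, ∀ K, G.K0 ≤ K → PH G D K ∧ PS G D K ∧ PT G D K :=
  exists_choice_of (fun D _ hK hD => step_H hG hG.g_pos D hK hD)
    (fun D _ hK hD H hH => step_S hG hG.g_pos D hK hD H hH)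
    (fun D _ hK hD H S _ _ => step_T hG D hK hD H S)

end Pool.Agent.E3
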