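import Pool.Agent.Helper84.E3.StepT5

/-!
# E-T (MP_12a1af_nt), phase 3: the choice of the window sets
-/

variable [Pool.Agent.Helper29.E3.EpFn]

set_option autoImplicit false

open Finset

namespace Pool.Agent.E3

section

variable {G : Geo}

lemma card_filter_le_of {T Q : Finset ℕ} {P : ℕ → Prop} [DecidablePred P]
    (h : ∀ t ∈ T, P t → t ∈ Q) : (T.filter P).card ≤ (T.filter (fun t => t ∈ Q)).card := by
  apply card_le_card
  intro t ht
  obtain ⟨h1, h2⟩ := mem_filter.mp ht
  exact mem_filter.mpr ⟨h1, h t h1 h2⟩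

lemma filter_inst {α : Type*} {P : α → Prop} (i j : DecidablePred P) (T : Finset α) :
    @Finset.filter α P i T = @Finset.filter α P j T := by
  have h : i = j := Subsingleton.elim i j
  subst h
  rfl

/-- `card_pairs_of_matching` with arbitrary decidability instances -/
lemma pairs_le_of {α : Type*} (T : Finset α) (R : α → α → Prop)
    [i1 : ∀ a, DecidablePred (fun b => R a b)] [i2 : DecidablePred (fun a => R a a)]
    [i3 : DecidablePred (fun p : α × α => R p.1 p.2)]
    (hsym : ∀ a b, R a b → R b a) {n d e : ℕ}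
    (hm : ∀ S : Finset (α × α), (∀ p ∈ S, p.1 ∈ T ∧ p.2 ∈ T ∧ p.1 ≠ p.2 ∧ R p.1 p.2) →
      (∀ p ∈ S, ∀ q ∈ S, p ≠ q → p.1 ≠ q.1 ∧ p.1 ≠ q.2 ∧ p.2 ≠ q.1 ∧ p.2 ≠ q.2) → S.card < n)
    (hd : ∀ a ∈ T, (T.filter (fun b => R a b)).card ≤ d)
    (he : (T.filter (fun a => R a a)).card ≤ e) :
    ((T ×ˢ T).filter (fun p => R p.1 p.2)).card ≤ 4 * n * d + e := by
  have h := card_pairs_of_matching (n := n) (d := d) (e := e) T R hsym hm
    (fun a ha => by rw [filter_inst _ (i1 a)]; exact hd a ha) (by rw [filter_inst _ i2]; exact he)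
  rw [filter_inst _ i3] at h
  exact h

set_option maxRecDepth 4000 in
/-- **Step T.** -/
theorem step_T (hG : G.Ok) (D : ℕ → Dt) {K : ℕ} (hK : G.K0 ≤ K)
    (hD : ∀ K', G.K0 ≤ K' → K' < K → PH G D K' ∧ PS G D K' ∧ PT G D K') (H S : ℕ → ℕ) :
    ∃ T, PT G (Function.update D K ⟨H, S, T⟩) K := by
  classical
  have hn1 := hG.numA K hK
  have hA4 := hG.A_low K hK
  have hn2 := hG.numb K hK
  have hn3 := hG.numd K hK
  have hdp := hG.d_pos K hK
  have hbp := hG.b_pos K hK
  have hbA := hG.b_le K hK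
  have hρ2 := hG.ρ_le hK
  have hρ8 := hG.ρ_low hK
  have hl1 := hG.l_le hK
  have hsub := hG.sub_q hK
  set D0 := Function.update D K ⟨H, S, ∅⟩ with hD0
  have hM : 0 < 2 ^ G.ρ K := by positivity
  have hself := near_self84 hG hK
  obtain ⟨T, hTc, hTlt, hlg, hsm, hpr⟩ := exists_rs_few (N := G.N K) (M := 2 ^ G.ρ K)
    (A := G.A K) (b := G.b K) (d := G.d K) (θ := G.th K) hM (few_PP hG D0 hK (hG.g_pos K hK))
    (few_PPY hG D0 hK (hG.g_pos K hK)) (hG.N_sq hK) (by omega)
    (by rw [Nat.mul_comm (G.d K) (G.b K)]; omega)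
  rw [hG.th_N hK] at hlg
  refine ⟨T, ?_⟩
  set DT := Function.update D K ⟨H, S, T⟩ with hDT
  have eK : DT K = ⟨H, S, T⟩ := Function.update_self _ _ _
  have eK0 : D0 K = ⟨H, S, ∅⟩ := Function.update_self _ _ _
  have eo : ∀ K', K' ≠ K → DT K' = D K' := fun K' h => Function.update_of_ne h _ _
  have eo0 : ∀ K', K' ≠ K → D0 K' = D K' := fun K' h => Function.update_of_ne h _ _
  have eT : (DT K).T = T := by rw [eK]
  have eH : ∀ K', (DT K').H = (D0 K').H := by
    intro K'
    by_cases h : K' = K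
    · rw [h, eK, eK0]
    · rw [eo K' h, eo0 K' h]
  have eS : ∀ K', (DT K').S = (D0 K').S := by
    intro K'
    by_cases h : K' = K
    · rw [h, eK, eK0]
    · rw [eo K' h, eo0 K' h]
  have eSh : ∀ K' ω, Sh G DT K' ω = Sh G D0 K' ω := by
    intro K' ω
    unfold Sh
    rw [eS]
  have eLam : ∀ K' L μ, Lam G DT K K' L μ = Lam G D0 K K' L μ := by
    intro K' L μ
    exact Lam_congr (eH K) (eH K') L μ
  have eT' : ∀ K', K' ≠ K → (DT K').T = (D0 K').T := by
    intro K' h
    rw [eo K' h, eo0 K' h]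
  -- the older scales
  have hPT' : ∀ K', G.Near K K' → K' ≠ K → PT G D0 K' := by
    intro K' hn hne
    have hlt : K' < K := lt_of_le_of_ne hn.2.1 hne
    refine (hD K' hn.1 hlt).2.2.congr ?_
    intro j hj
    exact (eo0 j (by omega)).symm
  have hρ' : ∀ K', G.Near K K' → G.q K = G.q K' → G.ρ K' ≤ G.ρ K := by
    intro K' hn hq
    have := hn.2.1
    unfold Geo.ρ Geo.w
    rw [hq]
    omega
  have pw : ∀ {x y : ℕ}, x ≤ y → (2 : ℕ) ^ x ≤ 2 ^ y := fun h =>
    Nat.pow_le_pow_right (by norm_num) h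
  have mlt : ∀ (x y : ℕ), x % 2 ^ y < 2 ^ y := fun x y => Nat.mod_lt _ (by positivity)
  refine ⟨?_, ?_, ?_, ?_, ?_, ?_, ?_, ?_, ?_, ?_, ?_, ?_⟩
  · rw [eT]; exact hTc
  · rw [eT]; exact hTlt
  · -- ta
    intro b n σ1 σ2
    rw [eT]
    refine (card_filter_le_of (Q := Q1 G K (b % 2 ^ G.ρ K)
      (n % 2 ^ (G.ln (G.w K) + G.ln (G.nx (G.w K)))) (σ1 % 2 ^ G.ln (G.w K))
      (σ2 % 2 ^ G.ln (G.nx (G.w K)))) ?_).trans ((hlg _ ?_ 160 (size_Q1 hG hK _ _ _ _)).trans ?_)
    · intro t ht h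
      refine mem_filter.mpr ⟨mem_range.mpr (hTlt t ht), ?_⟩
      simp only [Nat.add_mod_mod, Nat.mod_mod]
      exact h
    · left
      exact ⟨_, mem_range.mpr (mlt _ _), _, mem_range.mpr (mlt _ _), _,
        mem_range.mpr (mlt _ _), _, mem_range.mpr (mlt _ _), rfl⟩
    · omega
  · -- tc
    intro n
    rw [eT]
    refine (card_filter_le_of (Q := Q2 G K (n % 2 ^ G.ln (G.w K))) ?_).trans
      ((hlg _ ?_ _ (size_Q2 hG hK _)).trans ?_)
    · intro t ht h
      refine mem_filter.mpr ⟨mem_range.mpr (hTlt t ht), ?_⟩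
      simp only [Nat.mod_mod]
      exact h
    · right; left
      exact ⟨_, mem_range.mpr (mlt _ _), rfl⟩
    · omega
  · -- td
    intro b y
    rw [eT]
    by_cases hy : y < 2 ^ (G.ρ K + 1)
    · refine (card_filter_le_of (Q := Q3 G K (b % 2 ^ G.ρ K) y) ?_).trans
        ((hlg _ ?_ 4 (size_Q3 hG hK _ _)).trans ?_)
      · intro t ht h
        refine mem_filter.mpr ⟨mem_range.mpr (hTlt t ht), ?_⟩
        simp only [Nat.add_mod_mod]
        exact h
      · right; right; left
        exact ⟨_, mem_range.mpr (mlt _ _), _, mem_range.mpr hy, rfl⟩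
      · omega
    · have h0 : T.filter (fun t => ∃ u ∈ G.Sd (G.ln (G.w K)), u + (t + b) % 2 ^ G.ρ K = y) = ∅ := by
        apply filter_eq_empty_iff.mpr
        rintro t ht ⟨u, hu, he⟩
        have h1 := (hG.sd K _ hK (hG.q_le hK)).lt u hu
        have h2 := mlt (t + b) (G.ρ K)
        have h3 := pw (hG.L1_le_ρ hK)
        rw [pow_succ] at hy
        omega
      rw [h0]
      simp
  · -- td'
    intro hL b y
    rw [eT]
    by_cases hy : y < 2 ^ (G.ρ K + 1)
    · refine lt_of_le_of_lt (card_filter_le_of (Q := Q3 G K (b % 2 ^ G.ρ K) y) ?_)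
        (hsm _ ?_ (small_Q3 hG hK hL _ _))
      · intro t ht h
        refine mem_filter.mpr ⟨mem_range.mpr (hTlt t ht), ?_⟩
        simp only [Nat.add_mod_mod]
        exact h
      · right; right; left
        exact ⟨_, mem_range.mpr (mlt _ _), _, mem_range.mpr hy, rfl⟩
    · have h0 : T.filter (fun t => ∃ u ∈ G.Sd (G.ln (G.w K)), u + (t + b) % 2 ^ G.ρ K = y) = ∅ := by
        apply filter_eq_empty_iff.mpr
        rintro t ht ⟨u, hu, he⟩
        have h1 := (hG.sd K _ hK (hG.q_le hK)).lt u hu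
        have h2 := mlt (t + b) (G.ρ K)
        have h3 := pw (hG.L1_le_ρ hK)
        rw [pow_succ] at hy
        omega
      rw [h0]
      simp
      omega
  · -- t00
    intro K' hn hq b n
    have hr := hρ' K' hn hq
    by_cases hne : K' = K
    · subst hne
      rw [eT]
      have hYm : Y2 G K' (b % 2 ^ G.ρ K') (n % 2 ^ G.ρ K') ∈ PPY G D0 K' := by
        right
        exact ⟨_, mem_range.mpr (mlt _ _), _, mem_range.mpr (mlt _ _), rfl⟩
      have key := pairs_le_of T (fun t t' => (t + t') % 2 ^ G.ρ K' ∈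
        Y2 G K' (b % 2 ^ G.ρ K') (n % 2 ^ G.ρ K')) (fun t t' h => by rw [Nat.add_comm]; exact h)
        (n := G.A K' + 2 + 1) (d := 1) (e := G.A K' + 8)
        (fun S hS hd => hpr _ hYm 2 (by
          have := num_Y hG hK (c := 1) (card_Y2 (G := G) (K := K') (b % 2 ^ G.ρ K')
            (n % 2 ^ G.ρ K'))
          simpa using this) S hS hd) (by
          intro t ht
          rw [card_le_one]
          intro x hx y hy
          obtain ⟨hx1, hx2⟩ := mem_filter.mp hx
          obtain ⟨hy1, hy2⟩ := mem_filter.mp hy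
          have h1 := (card_le_one.mp (card_Y2 (G := G) (K := K') (b % 2 ^ G.ρ K')
            (n % 2 ^ G.ρ K'))) _ hx2 _ hy2
          exact add_mod_cancel' (hTlt x hx1) (hTlt y hy1) h1) (by
          refine (card_filter_le_of (Q := Q11 G K' (b % 2 ^ G.ρ K') (n % 2 ^ G.ρ K')) ?_).trans
            (hlg _ ?_ 8 ?_)
          · intro t ht h
            obtain ⟨_, i, hi, he⟩ := mem_filter.mp h
            refine mem_filter.mpr ⟨mem_range.mpr (hTlt t ht), i, hi, ?_⟩
            rw [Nat.mod_add_mod] at he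
            exact he
          · iterate 10 right
            exact ⟨_, mem_range.mpr (mlt _ _), _, mem_range.mpr (mlt _ _), rfl⟩
          · have := hG.num_const hK (c := 2) (card_Q11 (G := G) (K := K') (b % 2 ^ G.ρ K')
              (n % 2 ^ G.ρ K'))
            simpa using this)
      refine le_trans (card_le_card ?_) (key.trans ?_)
      · intro p hp
        obtain ⟨h1, h2⟩ := mem_filter.mp hp
        refine mem_filter.mpr ⟨h1, mem_filter.mpr ⟨mem_range.mpr (mlt _ _), b % 2 ^ G.ρ K',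
          mem_singleton_self _, ?_⟩⟩
        rw [Nat.mod_add_mod, Nat.add_mod_mod, Nat.mod_mod]
        rw [Nat.add_mod_mod] at h2
        rw [← h2]
        congr 1
        ring
      · omega
    · rw [eT, eT' K' hne]
      have hP := hPT' K' hn hne
      have e1 : ((T ×ˢ (D0 K').T).filter (fun p =>
          (p.1 + (p.2 + b) % 2 ^ G.ρ K') % 2 ^ G.ρ K = n % 2 ^ G.ρ K)).card ≤
          (T.filter (fun t => t ∈ Q4 G D0 K K' (b % 2 ^ G.ρ K') (n % 2 ^ G.ρ K))).card := by
        apply card_le_of_rel _ _ (fun t p => p.1 = t)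
        · intro p hp
          obtain ⟨h1, h2⟩ := mem_filter.mp hp
          obtain ⟨h3, h4⟩ := mem_product.mp h1
          refine ⟨p.1, mem_filter.mpr ⟨h3, mem_filter.mpr ⟨mem_range.mpr (hTlt _ h3), p.2, h4, ?_⟩⟩,
            rfl⟩
          simp only [Nat.add_mod_mod, Nat.mod_mod]
          exact h2
        · intro t _ p hp p' hp' h h'
          obtain ⟨h1, h2⟩ := mem_filter.mp hp
          obtain ⟨h3, h4⟩ := mem_product.mp h1
          obtain ⟨h1', h2'⟩ := mem_filter.mp hp'
          obtain ⟨h3', h4'⟩ := mem_product.mp h1'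
          have h5 : p.1 = p'.1 := h.trans h'.symm
          rw [h5] at h2
          have h6 := add_mod_cancel' ((mlt (p.2 + b) (G.ρ K')).trans_le (pw hr))
            ((mlt (p'.2 + b) (G.ρ K')).trans_le (pw hr)) (h2.trans h2'.symm)
          exact Prod.ext h5 (add_mod_cancel (hP.lt _ h4) (hP.lt _ h4') h6)
      refine e1.trans ((hlg _ ?_ 2 (size_Q4 hG hK hn hq hP.card _ _)).trans (by omega))
      right; right; right; left
      exact ⟨K', mem_nearS.mpr hn, _, mem_range.mpr ((mlt b _).trans_le (pw (hr.trans hρ2))), _,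
        mem_range.mpr (mlt _ _), rfl⟩
  · -- t01
    intro K' hn hq b n
    obtain ⟨h1, h2, h3, h4, h5, h6⟩ := case1 hG hK hn hq
    have hne : K' ≠ K := by omega
    rw [eT, eT' K' hne]
    have hP := hPT' K' hn hne
    have hc := card_Q5 hG hK hn hq hP (b % 2 ^ G.ρ K') (n % 2 ^ (K - G.q K))
    have hmem : Q5 G D0 K K' (b % 2 ^ G.ρ K') (n % 2 ^ (K - G.q K)) ∈ PP G D0 K := by
      iterate 4 right
      left
      refine ⟨K', mem_nearS.mpr hn, _, mem_range.mpr ((mlt b _).trans_le (pw ?_)), _,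
        mem_range.mpr (mlt _ _), rfl⟩
      omega
    have e1 := card_filter_le_of (T := T) (Q := Q5 G D0 K K' (b % 2 ^ G.ρ K')
      (n % 2 ^ (K - G.q K))) (P := fun t => ∃ u ∈ G.Sd (G.l K), ∃ t' ∈ (D0 K').T,
      (u + 2 ^ G.l K * t + (t' + b) % 2 ^ G.ρ K') % 2 ^ (K - G.q K) =
        n % 2 ^ (K - G.q K)) (by
      intro t ht h
      refine mem_filter.mpr ⟨mem_range.mpr (hTlt t ht), ?_⟩
      simp only [Nat.add_mod_mod, Nat.mod_mod]
      exact h)
    have hw := hG.w_le hK
    have hρe : G.ρ K = K - G.w K := rfl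
    split_ifs with hif
    · have e2 := hlg _ hmem (33 * 1) (hG.num_tc hK (c := 1) (r := K' - G.w K) (by omega)
        (by rw [one_mul]; exact hc))
      omega
    · have e2 := hsm _ hmem (hG.num_small_tc hK (c := 1) (r := K' - G.w K) (by omega) (by omega)
        (by rw [one_mul]; exact hc))
      omega
  · -- t0
    intro K' hn hT hne hq L hL μ n ε hε
    have hr := hρ' K' hn hq
    have hP := hPT' K' hn hne
    simp only [eSh, eLam]
    rw [eT, eT' K' hne]
    have hmu : Lam G D0 K K' L μ = Lam G D0 K K' L (μ % 2 ^ G.lO K) := by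
      unfold Lam
      simp only [Nat.mod_mod]
    have hc : (Q6 G D0 K K' L (μ % 2 ^ G.lO K) (n % 2 ^ G.ρ K) ε).card ≤
        (8 * G.A K) * 2 ^ (G.ρ K' / 2 - 1) := by
      have := card_Q6 hG hK (D := D0) hn hL (μ % 2 ^ G.lO K) (n % 2 ^ G.ρ K) ε
      rw [hP.card] at this
      exact this.trans (Nat.mul_le_mul_left _ (G.N_le_N0 K'))
    refine (card_filter_le_of (Q := Q6 G D0 K K' L (μ % 2 ^ G.lO K) (n % 2 ^ G.ρ K) ε) ?_).trans
      ((hlg _ ?_ _ (hG.num_half hK hr hc)).trans ?_)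
    · intro t ht h
      refine mem_filter.mpr ⟨mem_range.mpr (hTlt t ht), ?_⟩
      rw [← hmu]
      simp only [Nat.mod_mod]
      exact h
    · iterate 5 right
      left
      exact ⟨K', mem_nearS.mpr hn, L, hL, _, mem_range.mpr (mlt _ _), _, mem_range.mpr (mlt _ _),
        ε, mem_range.mpr hε, rfl⟩
    · omega
  · -- t1
    intro K' hn hT hq L hL μ n ε hε
    obtain ⟨h1, h2, h3, h4, h5, h6⟩ := case1 hG hK hn hq
    have hne : K' ≠ K := by omega
    have hP := hPT' K' hn hne
    simp only [eSh, eLam, eS]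
    rw [eT, eT' K' hne]
    have hmu : Lam G D0 K K' L μ = Lam G D0 K K' L (μ % 2 ^ G.lO K) := by
      unfold Lam
      simp only [Nat.mod_mod]
    have hc := card_Q7 hG hK (D := D0) hn hq hP hL (μ % 2 ^ G.lO K) (n % 2 ^ (K - G.q K)) ε
    have hmem : Q7 G D0 K K' L (μ % 2 ^ G.lO K) (n % 2 ^ (K - G.q K)) ε ∈ PP G D0 K := by
      iterate 6 right
      left
      exact ⟨K', mem_nearS.mpr hn, L, hL, _, mem_range.mpr (mlt _ _), _, mem_range.mpr (mlt _ _),
        ε, mem_range.mpr hε, rfl⟩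
    have e1 := card_filter_le_of (T := T) (Q := Q7 G D0 K K' L (μ % 2 ^ G.lO K)
      (n % 2 ^ (K - G.q K)) ε) (P := fun t => ∃ a ∈ Lam G D0 K K' L μ,
      ∃ u ∈ G.Sd (G.l K), ∃ t' ∈ (D0 K').T,
      (u + 2 ^ G.l K * t + (D0 K).S a.2.1 + (t' + Sh G D0 K' a.2.2 + ε) % 2 ^ G.ρ K') %
        2 ^ (K - G.q K) = n % 2 ^ (K - G.q K)) (by
      intro t ht h
      refine mem_filter.mpr ⟨mem_range.mpr (hTlt t ht), ?_⟩
      rw [← hmu]
      simp only [Nat.mod_mod]
      exact h)
    have hw := hG.w_le hK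
    have hρe : G.ρ K = K - G.w K := rfl
    split_ifs with hif
    · have e2 := hlg _ hmem _ (hG.num_tc hK (r := K' - G.w K) (by omega) hc)
      omega
    · have e2 := hsm _ hmem (hG.num_small_tc hK le_rfl (by omega) hc)
      omega
  · -- t2
    intro K' hn hT hlt L hL μ n
    simp only [eSh, eLam]
    rw [eT]
    have hmu : Lam G D0 K K' L μ = Lam G D0 K K' L (μ % 2 ^ G.lO K) := by
      unfold Lam
      simp only [Nat.mod_mod]
    refine lt_of_le_of_lt (card_filter_le_of (Q := Q8 G D0 K K' L (μ % 2 ^ G.lO K)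
      (n % 2 ^ G.ρ K)) ?_) (hsm _ ?_ (hG.num_small hK ((card_Q8 hG hK hn hL _ _).trans
        (by omega))))
    · intro t ht h
      refine mem_filter.mpr ⟨mem_range.mpr (hTlt t ht), ?_⟩
      rw [← hmu]
      simp only [Nat.mod_mod]
      exact h
    · iterate 7 right
      left
      exact ⟨K', mem_nearS.mpr hn, L, hL, _, mem_range.mpr (mlt _ _), _, mem_range.mpr (mlt _ _),
        rfl⟩
  · -- self
    intro hT L hL μ n
    simp only [eSh, eLam]
    rw [eT]
    have hmu : Lam G D0 K K L μ = Lam G D0 K K L (μ % 2 ^ G.lO K) := by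
      unfold Lam
      simp only [Nat.mod_mod]
    have hYm : Y1 G D0 K L (μ % 2 ^ G.lO K) (n % 2 ^ G.ρ K) ∈ PPY G D0 K := by
      left
      exact ⟨L, hL, _, mem_range.mpr (mlt _ _), _, mem_range.mpr (mlt _ _), rfl⟩
    have key := pairs_le_of T (fun t t' => (t + t') % 2 ^ G.ρ K ∈
      Y1 G D0 K L (μ % 2 ^ G.lO K) (n % 2 ^ G.ρ K)) (fun t t' h => by rw [Nat.add_comm]; exact h)
      (n := G.A K + 2 * (8 * G.A K) + 1) (d := G.b K) (e := G.b K)
      (fun S hS hd => hpr _ hYm _ (num_Y hG hK (card_Y1 hG hK hL _ _)) S hS hd) (by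
        intro t ht
        refine (card_filter_le_of (Q := Q9 G D0 K L (μ % 2 ^ G.lO K) (n % 2 ^ G.ρ K) t) ?_).trans
          (hsm _ ?_ (hG.num_small hK ((card_Q9 hG hK hL _ _ _).trans (by omega)))).le
        · intro t' ht' h
          obtain ⟨_, a, ha, he⟩ := mem_filter.mp h
          refine mem_filter.mpr ⟨mem_range.mpr (hTlt t' ht'), a, ha, ?_⟩
          rw [Nat.mod_add_mod] at he
          rw [← he]
          congr 1
          ring
        · iterate 8 right
          left
          exact ⟨L, hL, _, mem_range.mpr (mlt _ _), _, mem_range.mpr (mlt _ _), t,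
            mem_range.mpr (hTlt t ht), rfl⟩) (by
        refine (card_filter_le_of (Q := Q10 G D0 K L (μ % 2 ^ G.lO K) (n % 2 ^ G.ρ K)) ?_).trans
          (hsm _ ?_ (hG.num_small hK (card_Q10 hG hK hL _ _))).le
        · intro t ht h
          obtain ⟨_, a, ha, he⟩ := mem_filter.mp h
          refine mem_filter.mpr ⟨mem_range.mpr (hTlt t ht), a, ha, ?_⟩
          rw [Nat.mod_add_mod] at he
          exact he
        · iterate 9 right
          left
          exact ⟨L, hL, _, mem_range.mpr (mlt _ _), _, mem_range.mpr (mlt _ _), rfl⟩)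
    refine le_trans (card_le_card ?_) (key.trans ?_)
    · intro p hp
      obtain ⟨h1, a, ha, h2⟩ := mem_filter.mp hp
      refine mem_filter.mpr ⟨h1, mem_filter.mpr ⟨mem_range.mpr (mlt _ _), a, ?_, ?_⟩⟩
      · rw [← hmu]; exact ha
      · rw [Nat.mod_add_mod, Nat.mod_mod, ← h2]
        congr 1
        ring
    · have e1 : 4 * (G.A K + 2 * (8 * G.A K) + 1) * G.b K + G.b K =
          68 * (G.A K * G.b K) + 5 * G.b K := by ring
      have e2 : G.b K ≤ G.A K * G.b K := Nat.le_mul_of_pos_left _ (by omega)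
      have e3 : 200 * G.A K * G.b K = 200 * (G.A K * G.b K) := by ring
      rw [e1, e3]
      omega

end

end Pool.Agent.E3
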