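import Pool.Agent.Helper84.E3.Choice
import Pool.Agent.Helper70.E3.LamF

/-!
# E-T (MP_12a1af_nt), phase 3: the choice of the window sets, sizes
-/

variable [Pool.Agent.Helper29.E3.EpFn]

set_option autoImplicit false

open Finset

namespace Pool.Agent.E3

section num

variable {G : Geo} (hG : G.Ok) {K : ℕ} (hK : G.K0 ≤ K)

include hG hK

lemma Geo.Ok.w_le : G.w K ≤ K := (Nat.le_add_right _ _).trans (hG.lo K hK)

lemma Geo.Ok.q_le : G.q K ≤ G.w K := Nat.le_add_right _ _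

lemma Geo.Ok.sub_q : K - G.q K = G.l K + G.ρ K := by
  have h1 := hG.w_le hK
  have h2 : G.w K = G.q K + G.l K := rfl
  unfold Geo.ρ
  omega

lemma Geo.Ok.L1_le_ρ : G.ln (G.w K) ≤ G.ρ K := by
  have h1 := hG.lo K hK
  have h2 : G.nx (G.w K) = G.w K + G.ln (G.w K) := rfl
  unfold Geo.ρ
  omega

lemma Geo.Ok.ρ_lt : G.ρ K < G.ln (G.w K) + G.ln (G.nx (G.w K)) := by
  have h1 := hG.hi K hK
  have h0 := hG.w_le hK
  have h2 : G.nx (G.w K) = G.w K + G.ln (G.w K) := rfl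
  have h3 : G.nx (G.nx (G.w K)) = G.nx (G.w K) + G.ln (G.nx (G.w K)) := rfl
  unfold Geo.ρ
  omega

lemma Geo.Ok.l_le : G.l K ≤ G.l1 K :=
  hG.ln_high K _ hK ((hG.q_le hK).trans (hG.w_le hK))

lemma Geo.Ok.L1_le : G.ln (G.w K) ≤ G.l1 K := hG.ln_high K _ hK (hG.w_le hK)

lemma Geo.Ok.L2_le : G.ln (G.nx (G.w K)) ≤ G.l1 K := hG.ln_high K _ hK (hG.lo K hK)

lemma Geo.Ok.ρ_le : G.ρ K ≤ 2 * G.l1 K := by
  have h1 := hG.ρ_lt hK
  have h2 := hG.L1_le hK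
  have h3 := hG.L2_le hK
  omega

lemma Geo.Ok.l_low : 8 * G.d K ≤ G.l K := hG.ln_low K _ hK le_rfl

lemma Geo.Ok.L1_low : 8 * G.d K ≤ G.ln (G.w K) := hG.ln_low K _ hK (hG.q_le hK)

lemma Geo.Ok.L2_low : 8 * G.d K ≤ G.ln (G.nx (G.w K)) :=
  hG.ln_low K _ hK ((hG.q_le hK).trans (Nat.le_add_right _ _))

lemma Geo.Ok.ρ_low : 8 * G.d K ≤ G.ρ K := (hG.L1_low hK).trans (hG.L1_le_ρ hK)

omit hG hK in
lemma Geo.N_le_N0 (G : Geo) (K : ℕ) : G.N K ≤ G.N0 K :=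
  Nat.pow_le_pow_right (by norm_num) (Nat.sub_le _ _)

/-- the thinning -/
lemma Geo.Ok.th_N : 2 ^ G.th K * G.N K = G.N0 K := by
  have h1 := hG.ρ_low hK
  have h2 := hG.d_pos K hK
  have h3 := hG.th_le K hK
  unfold Geo.N Geo.N0
  rw [← pow_add]
  congr 1
  omega

lemma Geo.Ok.N0_sq : 4 * (G.N0 K * G.N0 K) ≤ 2 ^ G.ρ K := by
  have h1 := hG.ρ_low hK
  have h2 := hG.d_pos K hK
  have h3 : 4 * (G.N0 K * G.N0 K) = 2 ^ (2 + ((G.ρ K / 2 - 1) + (G.ρ K / 2 - 1))) := by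
    unfold Geo.N0
    rw [pow_add, pow_add]; norm_num
  rw [h3]
  exact Nat.pow_le_pow_right (by norm_num) (by omega)

lemma Geo.Ok.N_sq : 4 * (G.N K * G.N K) ≤ 2 ^ G.ρ K :=
  (Nat.mul_le_mul_left _ (Nat.mul_le_mul (G.N_le_N0 K) (G.N_le_N0 K))).trans (hG.N0_sq hK)

end num

/-! ### sizes -/

/-- At most one point of `X` for every element of `I`. -/
lemma card_le_of_rel {α β : Type*} (X : Finset α) (I : Finset β) (R : β → α → Prop)
    (h1 : ∀ x ∈ X, ∃ i ∈ I, R i x) (h2 : ∀ i ∈ I, ∀ x ∈ X, ∀ y ∈ X, R i x → R i y → x = y) :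
    X.card ≤ I.card := by
  apply Finset.card_le_card_of_forall_subsingleton (fun x i => R i x)
  · intro x hx
    obtain ⟨i, hi, h⟩ := h1 x hx
    exact ⟨i, hi, h⟩
  · intro i hi x hx y hy
    exact h2 i hi x hx.1 y hy.1 hx.2 hy.2

/-- cancellation -/
lemma add_mod_cancel {M a b c : ℕ} (ha : a < M) (hb : b < M) (h : (a + c) % M = (b + c) % M) :
    a = b :=
  Nat.ModEq.eq_of_lt_of_lt (Nat.ModEq.add_right_cancel' c h) ha hb

lemma add_mod_cancel' {M a b c : ℕ} (ha : a < M) (hb : b < M) (h : (c + a) % M = (c + b) % M) :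
    a = b := by
  rw [Nat.add_comm c a, Nat.add_comm c b] at h
  exact add_mod_cancel ha hb h

lemma mod_two_pow_of_le {m n a b : ℕ} (h : m ≤ n) (hab : a % 2 ^ n = b % 2 ^ n) :
    a % 2 ^ m = b % 2 ^ m :=
  Nat.ModEq.of_dvd (Nat.pow_dvd_pow 2 h) hab

end Pool.Agent.E3
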