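import Pool.Agent.Helper84.E3.StepT2

/-!
# E-T (MP_12a1af_nt), phase 3: the choice of the window sets, sizes of the tests (2)
-/

variable [Pool.Agent.Helper29.E3.EpFn]

set_option autoImplicit false

open Finset

namespace Pool.Agent.E3

open Classical in
/-- one point for every index -/
lemma card_rel1 {β : Type*} (I : Finset β) (f : β → ℕ) (M n : ℕ) :
    ((range M).filter (fun t => ∃ i ∈ I, (t + f i) % M = n % M)).card ≤ I.card := by
  apply card_le_of_rel _ _ (fun i t => (t + f i) % M = n % M)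
  · intro t ht
    obtain ⟨_, i, hi, he⟩ := mem_filter.mp ht
    exact ⟨i, hi, he⟩
  · intro i _ t ht t' ht' h h'
    exact add_mod_cancel (mem_range.mp (mem_filter.mp ht).1) (mem_range.mp (mem_filter.mp ht').1)
      (h.trans h'.symm)

open Classical in
/-- two points for every index -/
lemma card_rel2 {β : Type*} (I : Finset β) (f : β → ℕ) (M n : ℕ) :
    ((range M).filter (fun t => ∃ i ∈ I, (t + t + f i) % M = n % M)).card ≤ 2 * I.card := by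
  have h1 : ((range M).filter (fun t => ∃ i ∈ I, (t + t + f i) % M = n % M)).card ≤
      (I ×ˢ range 2).card := by
    apply card_le_of_rel _ _ (fun i t => (t + t + f i.1) % M = n % M ∧
      (if M ≤ t + t then 1 else 0) = i.2)
    · intro t ht
      obtain ⟨_, i, hi, he⟩ := mem_filter.mp ht
      refine ⟨(i, if M ≤ t + t then 1 else 0), mem_product.mpr ⟨hi, mem_range.mpr ?_⟩, he, rfl⟩
      split_ifs <;> norm_num
    · rintro i _ t ht t' ht' ⟨h, h2⟩ ⟨h', h2'⟩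
      have h3 := mem_range.mp (mem_filter.mp ht).1
      have h4 := mem_range.mp (mem_filter.mp ht').1
      have h5 : t + t ≡ t' + t' [MOD M] := Nat.ModEq.add_right_cancel' _ (h.trans h'.symm)
      rw [← h2'] at h2
      have h6 : (t + t) % M = (t' + t') % M := h5
      by_cases k : M ≤ t + t
      · have k' : M ≤ t' + t' := by
          by_contra hcon
          rw [if_pos k, if_neg hcon] at h2
          omega
        rw [Nat.mod_eq_sub_mod k, Nat.mod_eq_sub_mod k', Nat.mod_eq_of_lt (by omega),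
          Nat.mod_eq_of_lt (by omega)] at h6
        omega
      · have k' : ¬ M ≤ t' + t' := by
          intro hcon
          rw [if_neg k, if_pos hcon] at h2
          omega
        rw [Nat.mod_eq_of_lt (by omega), Nat.mod_eq_of_lt (by omega)] at h6
        omega
  refine h1.trans ?_
  rw [card_product, card_range, mul_comm]

open Classical in
/-- one point for every good index -/
lemma card_rel3 {β : Type*} {Sd : ℕ → Finset ℕ} {l ρ : ℕ} (h : SdOk Sd l) (I : Finset β)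
    (f : β → ℕ) (n : ℕ) :
    ((range (2 ^ ρ)).filter (fun t => ∃ u ∈ Sd l, ∃ i ∈ I,
      (u + 2 ^ l * t + f i) % 2 ^ (l + ρ) = n % 2 ^ (l + ρ))).card ≤
    (I.filter (fun i => ∃ u ∈ Sd l, (u + f i) % 2 ^ l = n % 2 ^ l)).card := by
  apply card_le_of_rel _ _ (fun i t => ∃ u ∈ Sd l,
    (u + 2 ^ l * t + f i) % 2 ^ (l + ρ) = n % 2 ^ (l + ρ))
  · intro t ht
    obtain ⟨_, u, hu, i, hi, he⟩ := mem_filter.mp ht
    refine ⟨i, mem_filter.mpr ⟨hi, u, hu, ?_⟩, u, hu, he⟩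
    have h1 := mod_two_pow_of_le (Nat.le_add_right l ρ) he
    rw [← h1, show u + 2 ^ l * t + f i = u + f i + 2 ^ l * t by ring, Nat.add_mul_mod_self_left]
  · rintro i _ t ht t' ht' ⟨u, hu, he⟩ ⟨u', hu', he'⟩
    have h3 := mem_range.mp (mem_filter.mp ht).1
    have h4 := mem_range.mp (mem_filter.mp ht').1
    have h5 : u + 2 ^ l * t ≡ u' + 2 ^ l * t' [MOD 2 ^ (l + ρ)] :=
      Nat.ModEq.add_right_cancel' _ (he.trans he'.symm)
    have hlt : ∀ u t, u < 2 ^ l → t < 2 ^ ρ → u + 2 ^ l * t < 2 ^ (l + ρ) := by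
      intro u t hu ht
      have e1 : 2 ^ l * (t + 1) ≤ 2 ^ l * 2 ^ ρ := Nat.mul_le_mul_left _ ht
      rw [← pow_add] at e1
      have e2 : 2 ^ l * (t + 1) = 2 ^ l * t + 2 ^ l := by ring
      omega
    have h6 := Nat.ModEq.eq_of_lt_of_lt h5 (hlt _ _ (h.lt u hu) h3) (hlt _ _ (h.lt u' hu') h4)
    have h7 : u % 2 ^ l = u' % 2 ^ l := by
      have := congrArg (· % 2 ^ l) h6
      simpa [Nat.add_mul_mod_self_left] using this
    rw [Nat.mod_eq_of_lt (h.lt u hu), Nat.mod_eq_of_lt (h.lt u' hu')] at h7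
    rw [h7] at h6
    have h8 : 2 ^ l * t = 2 ^ l * t' := Nat.add_left_cancel h6
    exact Nat.eq_of_mul_eq_mul_left (by positivity) h8

lemma shift_mod (x c n m : ℕ) : (x + c) % 2 ^ m = n % 2 ^ m ↔
    x % 2 ^ m = (n + (2 ^ m - c % 2 ^ m)) % 2 ^ m := by
  have hc : c % 2 ^ m < 2 ^ m := Nat.mod_lt _ (by positivity)
  have h1 : c + (2 ^ m - c % 2 ^ m) ≡ 0 [MOD 2 ^ m] := by
    have : c + (2 ^ m - c % 2 ^ m) = 2 ^ m * (c / 2 ^ m) + 2 ^ m := by
      have := Nat.div_add_mod c (2 ^ m)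
      omega
    rw [this, Nat.ModEq]
    simp
  constructor
  · intro h
    have h2 : x + c + (2 ^ m - c % 2 ^ m) ≡ n + (2 ^ m - c % 2 ^ m) [MOD 2 ^ m] :=
      Nat.ModEq.add_right _ h
    have h3 : x + c + (2 ^ m - c % 2 ^ m) ≡ x [MOD 2 ^ m] := by
      rw [add_assoc]
      simpa using Nat.ModEq.add_left x h1
    exact h3.symm.trans h2
  · intro h
    have h2 : x + c ≡ n + (2 ^ m - c % 2 ^ m) + c [MOD 2 ^ m] := Nat.ModEq.add_right c h
    have h3 : n + (2 ^ m - c % 2 ^ m) + c ≡ n [MOD 2 ^ m] := by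
      rw [add_assoc, add_comm (2 ^ m - c % 2 ^ m) c]
      simpa using Nat.ModEq.add_left n h1
    exact h2.trans h3

open Classical in
/-- the tests `tc` of the older scale with a shift -/
lemma card_tc_shift {Sd : ℕ → Finset ℕ} {l ρ' B : ℕ} (T' : Finset ℕ) (hl : l ≤ ρ')
    (hT : ∀ n, (T'.filter (fun t => ∃ u ∈ Sd l, (u + t) % 2 ^ l = n % 2 ^ l)).card ≤ B)
    (x c n : ℕ) :
    (T'.filter (fun t => ∃ u ∈ Sd l, (u + (x + (t + c) % 2 ^ ρ')) % 2 ^ l = n % 2 ^ l)).card ≤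
      B := by
  refine le_trans (card_le_card ?_) (hT (n + (2 ^ l - (x + c) % 2 ^ l)))
  intro t ht
  obtain ⟨h1, u, hu, he⟩ := mem_filter.mp ht
  refine mem_filter.mpr ⟨h1, u, hu, ?_⟩
  rw [← shift_mod]
  have h2 : (t + c) % 2 ^ ρ' ≡ t + c [MOD 2 ^ l] := by
    rw [Nat.ModEq, Nat.mod_mod_of_dvd _ (pow_dvd_pow 2 hl)]
  have h3 : u + (x + (t + c) % 2 ^ ρ') ≡ u + (x + (t + c)) [MOD 2 ^ l] :=
    Nat.ModEq.add_left _ (Nat.ModEq.add_left _ h2)
  have h4 : u + t + (x + c) = u + (x + (t + c)) := by ring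
  rw [h4]
  exact h3.symm.trans he

/-! ### numbers -/

section num2

variable {G : Geo} (hG : G.Ok) {K : ℕ} (hK : G.K0 ≤ K)

include hG hK

/-- sets with `c` points -/
lemma Geo.Ok.num_const {c x : ℕ} (hx : x ≤ c) : 8 * (G.N0 K * x) ≤ 4 * c * 2 ^ G.ρ K := by
  have h1 : G.N0 K * 2 ≤ 2 ^ G.ρ K := by
    have h2 := hG.ρ_low hK
    have h3 := hG.d_pos K hK
    unfold Geo.N0
    rw [← pow_succ]
    exact Nat.pow_le_pow_right (by norm_num) (by omega)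
  calc 8 * (G.N0 K * x) ≤ 8 * (G.N0 K * c) := Nat.mul_le_mul_left _ (Nat.mul_le_mul_left _ hx)
    _ = 4 * c * (G.N0 K * 2) := by ring
    _ ≤ 4 * c * 2 ^ G.ρ K := Nat.mul_le_mul_left _ h1

/-- sets with `c 2 ^ (ρ' / 2 - 1)` points -/
lemma Geo.Ok.num_half {c x r : ℕ} (hr : r ≤ G.ρ K) (hx : x ≤ c * 2 ^ (r / 2 - 1)) :
    8 * (G.N0 K * x) ≤ 2 * c * 2 ^ G.ρ K := by
  have h1 : 4 * (G.N0 K * 2 ^ (r / 2 - 1)) ≤ 2 ^ G.ρ K := by
    refine le_trans ?_ (hG.N0_sq hK)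
    apply Nat.mul_le_mul_left
    apply Nat.mul_le_mul_left
    unfold Geo.N0
    exact Nat.pow_le_pow_right (by norm_num) (by omega)
  calc 8 * (G.N0 K * x) ≤ 8 * (G.N0 K * (c * 2 ^ (r / 2 - 1))) :=
        Nat.mul_le_mul_left _ (Nat.mul_le_mul_left _ hx)
    _ = 2 * c * (4 * (G.N0 K * 2 ^ (r / 2 - 1))) := by ring
    _ ≤ 2 * c * 2 ^ G.ρ K := Nat.mul_le_mul_left _ h1

/-- sets with `c (8 * 2 ^ (r / 2) + A)` points -/
lemma Geo.Ok.num_tc {c x r : ℕ} (hr : r ≤ G.ρ K) (hx : x ≤ c * (8 * 2 ^ (r / 2) + G.A K)) :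
    8 * (G.N0 K * x) ≤ 33 * c * 2 ^ G.ρ K := by
  have hρ := hG.ρ_low hK
  have hd := hG.d_pos K hK
  have h1 : G.N0 K * (8 * 2 ^ (r / 2)) ≤ 4 * 2 ^ G.ρ K := by
    unfold Geo.N0
    calc 2 ^ (G.ρ K / 2 - 1) * (8 * 2 ^ (r / 2)) = 8 * 2 ^ (G.ρ K / 2 - 1 + r / 2) := by
          rw [pow_add]; ring
      _ ≤ 8 * 2 ^ (G.ρ K - 1) :=
          Nat.mul_le_mul_left _ (Nat.pow_le_pow_right (by norm_num) (by omega))
      _ = 4 * (2 ^ (G.ρ K - 1) * 2) := by ring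
      _ = 4 * 2 ^ G.ρ K := by rw [← pow_succ, Nat.sub_add_cancel (by omega)]
  have h2 : 8 * (G.N0 K * G.A K) ≤ 2 ^ G.ρ K := by
    have h3 := hG.numd K hK
    unfold Geo.N0
    calc 8 * (2 ^ (G.ρ K / 2 - 1) * G.A K) ≤ 2 ^ 3 * (2 ^ (G.ρ K / 2 - 1) * 2 ^ (G.d K - 20)) :=
          Nat.mul_le_mul (by norm_num) (Nat.mul_le_mul_left _ h3)
      _ = 2 ^ (3 + (G.ρ K / 2 - 1 + (G.d K - 20))) := by rw [pow_add, pow_add]
      _ ≤ 2 ^ G.ρ K := Nat.pow_le_pow_right (by norm_num) (by omega)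
  calc 8 * (G.N0 K * x) ≤ 8 * (G.N0 K * (c * (8 * 2 ^ (r / 2) + G.A K))) :=
        Nat.mul_le_mul_left _ (Nat.mul_le_mul_left _ hx)
    _ = 8 * c * (G.N0 K * (8 * 2 ^ (r / 2))) + c * (8 * (G.N0 K * G.A K)) := by ring
    _ ≤ 8 * c * (4 * 2 ^ G.ρ K) + c * 2 ^ G.ρ K :=
        Nat.add_le_add (Nat.mul_le_mul_left _ h1) (Nat.mul_le_mul_left _ h2)
    _ = 33 * c * 2 ^ G.ρ K := by ring

/-- small sets: constants -/
lemma Geo.Ok.num_small {x : ℕ} (hx : x ≤ 16 * G.A K) : G.N K * x * 2 ^ G.d K ≤ 2 ^ G.ρ K := by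
  have hρ := hG.ρ_low hK
  have hd := hG.d_pos K hK
  have h3 := hG.numd K hK
  refine (Nat.mul_le_mul_right _ (Nat.mul_le_mul_right _ (G.N_le_N0 K))).trans ?_
  unfold Geo.N0
  calc 2 ^ (G.ρ K / 2 - 1) * x * 2 ^ G.d K ≤
        2 ^ (G.ρ K / 2 - 1) * (2 ^ 4 * 2 ^ (G.d K - 20)) * 2 ^ G.d K :=
        Nat.mul_le_mul_right _ (Nat.mul_le_mul_left _ (hx.trans
          (Nat.mul_le_mul (by norm_num) h3)))
    _ = 2 ^ (G.ρ K / 2 - 1 + (4 + (G.d K - 20)) + G.d K) := by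
        rw [pow_add, pow_add, pow_add]
    _ ≤ 2 ^ G.ρ K := Nat.pow_le_pow_right (by norm_num) (by omega)

/-- small sets with `c (8 * 2 ^ (r / 2) + A)` points, `r ≤ ρ - 4 d` -/
lemma Geo.Ok.num_small_tc {c x r : ℕ} (hc : c ≤ 8 * G.A K) (hr : r + 4 * G.d K ≤ G.ρ K)
    (hx : x ≤ c * (8 * 2 ^ (r / 2) + G.A K)) : G.N K * x * 2 ^ G.d K ≤ 2 ^ G.ρ K := by
  have hρ := hG.ρ_low hK
  have hd := hG.d_pos K hK
  have h3 := hG.numd K hK
  have h4 : 8 * 2 ^ (r / 2) + G.A K ≤ 2 ^ (4 + (G.ρ K / 2 - 2 * G.d K)) := by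
    have e1 : 2 ^ (r / 2) ≤ 2 ^ (G.ρ K / 2 - 2 * G.d K) :=
      Nat.pow_le_pow_right (by norm_num) (by omega)
    have e2 : G.A K ≤ 8 * 2 ^ (G.ρ K / 2 - 2 * G.d K) := by
      refine h3.trans (le_trans ?_ (Nat.le_mul_of_pos_left _ (by norm_num)))
      exact Nat.pow_le_pow_right (by norm_num) (by omega)
    rw [pow_add]
    omega
  have h5 : c ≤ 2 ^ (3 + (G.d K - 20)) := by
    rw [pow_add]
    exact hc.trans (Nat.mul_le_mul (by norm_num) h3)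
  refine (Nat.mul_le_mul_right _ (Nat.mul_le_mul_right _ (G.N_le_N0 K))).trans ?_
  unfold Geo.N0
  calc 2 ^ (G.ρ K / 2 - 1) * x * 2 ^ G.d K ≤ 2 ^ (G.ρ K / 2 - 1) *
        (2 ^ (3 + (G.d K - 20)) * 2 ^ (4 + (G.ρ K / 2 - 2 * G.d K))) * 2 ^ G.d K :=
        Nat.mul_le_mul_right _ (Nat.mul_le_mul_left _ (hx.trans (Nat.mul_le_mul h5 h4)))
    _ = 2 ^ (G.ρ K / 2 - 1 + (3 + (G.d K - 20) + (4 + (G.ρ K / 2 - 2 * G.d K))) + G.d K) := by
        rw [← pow_add, ← pow_add, ← pow_add]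
    _ ≤ 2 ^ G.ρ K := Nat.pow_le_pow_right (by norm_num) (by omega)

end num2

end Pool.Agent.E3
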