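import Pool.Agent.Helper84.E3.StepT3

/-!
# E-T (MP_12a1af_nt), phase 3: the choice of the window sets, the tests
-/

variable [Pool.Agent.Helper29.E3.EpFn]

set_option autoImplicit false

open Finset

namespace Pool.Agent.E3

open Classical in
/-- **Random sets**, for families given as sets. -/
theorem exists_rs_few {N M A b d n θ : ℕ} (hM : 0 < M) {P PY : Set (Finset ℕ)}
    (hP : Few P (2 ^ n)) (hPY : Few PY (2 ^ n)) (h3 : 4 * (N * N) ≤ M) (hA : n + 3 ≤ A * θ)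
    (hb : n + 3 ≤ d * b) :
    ∃ T : Finset ℕ, T.card = N ∧ (∀ t ∈ T, t < M) ∧
      (∀ Q ∈ P, ∀ c, 8 * (2 ^ θ * N * Q.card) ≤ c * M →
        (T.filter (fun t => t ∈ Q)).card ≤ A + c) ∧
      (∀ Q ∈ P, N * Q.card * 2 ^ d ≤ M → (T.filter (fun t => t ∈ Q)).card < b) ∧
      ∀ Y ∈ PY, ∀ c, 8 * (2 ^ θ * (N * N) * Y.card) ≤ c * M → ∀ S : Finset (ℕ × ℕ),
        (∀ p ∈ S, p.1 ∈ T ∧ p.2 ∈ T ∧ p.1 ≠ p.2 ∧ (p.1 + p.2) % M ∈ Y) →
        (∀ p ∈ S, ∀ q ∈ S, p ≠ q → p.1 ≠ q.1 ∧ p.1 ≠ q.2 ∧ p.2 ≠ q.1 ∧ p.2 ≠ q.2) →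
        S.card < A + c + 1 := by
  obtain ⟨F, hF1, hF2⟩ := hP
  obtain ⟨FY, hY1, hY2⟩ := hPY
  have hpow : 8 * 2 ^ n ≤ 2 ^ (A * θ) := by
    calc 8 * 2 ^ n = 2 ^ (n + 3) := by rw [pow_add]; ring
      _ ≤ 2 ^ (A * θ) := Nat.pow_le_pow_right (by norm_num) hA
  have hpow2 : 8 * 2 ^ n ≤ 2 ^ (d * b) := by
    calc 8 * 2 ^ n = 2 ^ (n + 3) := by rw [pow_add]; ring
      _ ≤ 2 ^ (d * b) := Nat.pow_le_pow_right (by norm_num) hb
  obtain ⟨T, h1, h2, h4, h5, h6⟩ := exists_rs2 (N := N) (M := M) (A := A) (b := b) (d := d)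
    (θ := θ) hM F FY
    h3 ((Nat.mul_le_mul_left _ hF2).trans hpow) ((Nat.mul_le_mul_left _ hF2).trans hpow2)
    (by omega)
  refine ⟨T, h1, h2, ?_, ?_, ?_⟩
  · intro Q hQ c hc
    have e1 := h4 Q (hF1 Q hQ)
    have e2 : 8 * (2 ^ θ * N * Q.card) / M ≤ c :=
      Nat.div_le_of_le_mul (by rw [Nat.mul_comm M c]; exact hc)
    omega
  · intro Q hQ hs
    exact h5 Q (hF1 Q hQ) hs
  · intro Y hY c hc S hS hd
    have e1 := h6 Y (hY1 Y hY) S hS hd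
    have e2 : 8 * (2 ^ θ * (N * N) * Y.card) / M ≤ c :=
      Nat.div_le_of_le_mul (by rw [Nat.mul_comm M c]; exact hc)
    omega

/-- the near scales -/
noncomputable def nearS (G : Geo) (K : ℕ) : Finset ℕ := by
  classical
  exact (range (K + 1)).filter (fun K' => G.Near K K')

lemma mem_nearS {G : Geo} {K K' : ℕ} : K' ∈ nearS G K ↔ G.Near K K' := by
  classical
  unfold nearS
  rw [mem_filter, mem_range]
  exact ⟨fun h => h.2, fun h => ⟨Nat.lt_succ_of_le h.2.1, h⟩⟩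

lemma card_nearS {G : Geo} {K : ℕ} : (nearS G K).card ≤ G.g K := by
  have h1 : nearS G K ⊆ Finset.Ico (K + 1 - G.g K) (K + 1) := by
    intro K' hK'
    rw [mem_nearS] at hK'
    rw [mem_Ico]
    obtain ⟨_, h2, h3⟩ := hK'
    omega
  have h2 := card_le_card h1
  rw [Nat.card_Ico] at h2
  omega

section tests

variable (G : Geo) (D : ℕ → Dt) (K : ℕ)

open Classical in
/-- tests `ta` -/
noncomputable def Q1 (b n σ1 σ2 : ℕ) : Finset ℕ :=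
  (range (2 ^ G.ρ K)).filter (fun t => ∃ c1 ∈ G.Sd (G.ln (G.w K)),
    ∃ c2 ∈ G.Sd (G.ln (G.nx (G.w K))), ((c1 + σ1) % 2 ^ G.ln (G.w K) +
      2 ^ G.ln (G.w K) * ((c2 + σ2) % 2 ^ G.ln (G.nx (G.w K))) + (t + b) % 2 ^ G.ρ K) %
      2 ^ (G.ln (G.w K) + G.ln (G.nx (G.w K))) =
      n % 2 ^ (G.ln (G.w K) + G.ln (G.nx (G.w K))))

open Classical in
/-- tests `tc` -/
noncomputable def Q2 (n : ℕ) : Finset ℕ :=
  (range (2 ^ G.ρ K)).filter (fun t => ∃ u ∈ G.Sd (G.ln (G.w K)),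
    (u + t) % 2 ^ G.ln (G.w K) = n % 2 ^ G.ln (G.w K))

open Classical in
/-- tests `td` -/
noncomputable def Q3 (b y : ℕ) : Finset ℕ :=
  (range (2 ^ G.ρ K)).filter (fun t => ∃ u ∈ G.Sd (G.ln (G.w K)),
    u + (t + b) % 2 ^ G.ρ K = y)

open Classical in
/-- tests `t00` -/
noncomputable def Q4 (K' b n : ℕ) : Finset ℕ :=
  (range (2 ^ G.ρ K)).filter (fun t => ∃ t' ∈ (D K').T,
    (t + (t' + b) % 2 ^ G.ρ K') % 2 ^ G.ρ K = n % 2 ^ G.ρ K)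

open Classical in
/-- tests `t01` -/
noncomputable def Q5 (K' b n : ℕ) : Finset ℕ :=
  (range (2 ^ G.ρ K)).filter (fun t => ∃ u ∈ G.Sd (G.l K), ∃ t' ∈ (D K').T,
    (u + 2 ^ G.l K * t + (t' + b) % 2 ^ G.ρ K') % 2 ^ (K - G.q K) = n % 2 ^ (K - G.q K))

open Classical in
/-- tests `t0` -/
noncomputable def Q6 (K' : ℕ) (L : Finset (ℕ × ℕ)) (μ n ε : ℕ) : Finset ℕ :=
  (range (2 ^ G.ρ K)).filter (fun t => ∃ a ∈ Lam G D K K' L μ, ∃ t' ∈ (D K').T,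
    (t + Sh G D K a.2.1 + (t' + Sh G D K' a.2.2 + ε) % 2 ^ G.ρ K') % 2 ^ G.ρ K =
      n % 2 ^ G.ρ K)

open Classical in
/-- tests `t1` -/
noncomputable def Q7 (K' : ℕ) (L : Finset (ℕ × ℕ)) (μ n ε : ℕ) : Finset ℕ :=
  (range (2 ^ G.ρ K)).filter (fun t => ∃ a ∈ Lam G D K K' L μ,
    ∃ u ∈ G.Sd (G.l K), ∃ t' ∈ (D K').T,
      (u + 2 ^ G.l K * t + (D K).S a.2.1 + (t' + Sh G D K' a.2.2 + ε) % 2 ^ G.ρ K') %
        2 ^ (K - G.q K) = n % 2 ^ (K - G.q K))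

open Classical in
/-- tests `t2` -/
noncomputable def Q8 (K' : ℕ) (L : Finset (ℕ × ℕ)) (μ n : ℕ) : Finset ℕ :=
  (range (2 ^ G.ρ K)).filter (fun t => ∃ a ∈ Lam G D K K' L μ,
    (t + Sh G D K a.2.1) % 2 ^ G.ρ K = n % 2 ^ G.ρ K)

open Classical in
/-- tests for the degrees of the pairs of the scale with itself -/
noncomputable def Q9 (L : Finset (ℕ × ℕ)) (μ n t0 : ℕ) : Finset ℕ :=
  (range (2 ^ G.ρ K)).filter (fun t => ∃ a ∈ Lam G D K K L μ,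
    (t + (t0 + Sh G D K a.2.1 + Sh G D K a.2.2)) % 2 ^ G.ρ K = n % 2 ^ G.ρ K)

open Classical in
/-- tests for the loops -/
noncomputable def Q10 (L : Finset (ℕ × ℕ)) (μ n : ℕ) : Finset ℕ :=
  (range (2 ^ G.ρ K)).filter (fun t => ∃ a ∈ Lam G D K K L μ,
    (t + t + (Sh G D K a.2.1 + Sh G D K a.2.2)) % 2 ^ G.ρ K = n % 2 ^ G.ρ K)

open Classical in
/-- tests for the loops, no list -/
noncomputable def Q11 (b n : ℕ) : Finset ℕ :=
  (range (2 ^ G.ρ K)).filter (fun t => ∃ i ∈ ({b} : Finset ℕ),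
    (t + t + i) % 2 ^ G.ρ K = n % 2 ^ G.ρ K)

open Classical in
/-- pair tests -/
noncomputable def Y1 (L : Finset (ℕ × ℕ)) (μ n : ℕ) : Finset ℕ :=
  (range (2 ^ G.ρ K)).filter (fun y => ∃ a ∈ Lam G D K K L μ,
    (y + (Sh G D K a.2.1 + Sh G D K a.2.2)) % 2 ^ G.ρ K = n % 2 ^ G.ρ K)

open Classical in
/-- pair tests, no list -/
noncomputable def Y2 (b n : ℕ) : Finset ℕ :=
  (range (2 ^ G.ρ K)).filter (fun y => ∃ i ∈ ({b} : Finset ℕ),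
    (y + i) % 2 ^ G.ρ K = n % 2 ^ G.ρ K)

/-- all tests -/
def PP : Set (Finset ℕ) :=
  {X | ∃ b ∈ range (2 ^ G.ρ K), X ∈ {X | ∃ n ∈ range (2 ^ (G.ln (G.w K) + G.ln (G.nx (G.w K)))),
    X ∈ {X | ∃ σ1 ∈ range (2 ^ G.ln (G.w K)), X ∈ {X | ∃ σ2 ∈ range (2 ^ G.ln (G.nx (G.w K))),
      X ∈ {X | X = Q1 G K b n σ1 σ2}}}}} ∪
  ({X | ∃ n ∈ range (2 ^ G.ln (G.w K)), X ∈ {X | X = Q2 G K n}} ∪
  ({X | ∃ b ∈ range (2 ^ G.ρ K), X ∈ {X | ∃ y ∈ range (2 ^ (G.ρ K + 1)),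
    X ∈ {X | X = Q3 G K b y}}} ∪
  ({X | ∃ K' ∈ nearS G K, X ∈ {X | ∃ b ∈ range (2 ^ (2 * G.l1 K)), X ∈ {X | ∃ n ∈ range (2 ^ G.ρ K),
    X ∈ {X | X = Q4 G D K K' b n}}}} ∪
  ({X | ∃ K' ∈ nearS G K, X ∈ {X | ∃ b ∈ range (2 ^ (3 * G.l1 K)),
    X ∈ {X | ∃ n ∈ range (2 ^ (K - G.q K)), X ∈ {X | X = Q5 G D K K' b n}}}} ∪
  ({X | ∃ K' ∈ nearS G K, X ∈ {X | ∃ L ∈ G.LF K K', X ∈ {X | ∃ μ ∈ range (2 ^ G.lO K),
    X ∈ {X | ∃ n ∈ range (2 ^ G.ρ K), X ∈ {X | ∃ ε ∈ range 2,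
      X ∈ {X | X = Q6 G D K K' L μ n ε}}}}}} ∪
  ({X | ∃ K' ∈ nearS G K, X ∈ {X | ∃ L ∈ G.LF K K', X ∈ {X | ∃ μ ∈ range (2 ^ G.lO K),
    X ∈ {X | ∃ n ∈ range (2 ^ (K - G.q K)), X ∈ {X | ∃ ε ∈ range 2,
      X ∈ {X | X = Q7 G D K K' L μ n ε}}}}}} ∪
  ({X | ∃ K' ∈ nearS G K, X ∈ {X | ∃ L ∈ G.LF K K', X ∈ {X | ∃ μ ∈ range (2 ^ G.lO K),
    X ∈ {X | ∃ n ∈ range (2 ^ G.ρ K), X ∈ {X | X = Q8 G D K K' L μ n}}}}} ∪
  ({X | ∃ L ∈ G.LF K K, X ∈ {X | ∃ μ ∈ range (2 ^ G.lO K),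
    X ∈ {X | ∃ n ∈ range (2 ^ G.ρ K), X ∈ {X | ∃ t0 ∈ range (2 ^ G.ρ K),
      X ∈ {X | X = Q9 G D K L μ n t0}}}}} ∪
  ({X | ∃ L ∈ G.LF K K, X ∈ {X | ∃ μ ∈ range (2 ^ G.lO K),
    X ∈ {X | ∃ n ∈ range (2 ^ G.ρ K), X ∈ {X | X = Q10 G D K L μ n}}}} ∪
  {X | ∃ b ∈ range (2 ^ G.ρ K), X ∈ {X | ∃ n ∈ range (2 ^ G.ρ K),
    X ∈ {X | X = Q11 G K b n}}})))))))))

/-- all pair tests -/
def PPY : Set (Finset ℕ) :=
  {X | ∃ L ∈ G.LF K K, X ∈ {X | ∃ μ ∈ range (2 ^ G.lO K),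
    X ∈ {X | ∃ n ∈ range (2 ^ G.ρ K), X ∈ {X | X = Y1 G D K L μ n}}}} ∪
  {X | ∃ b ∈ range (2 ^ G.ρ K), X ∈ {X | ∃ n ∈ range (2 ^ G.ρ K),
    X ∈ {X | X = Y2 G K b n}}}

end tests

section few

variable {G : Geo} (hG : G.Ok) (D : ℕ → Dt) {K : ℕ} (hK : G.K0 ≤ K) (hg : 0 < G.g K)

include hG hK hg

lemma few_PP : Few (PP G D K) (2 ^ (G.E K + 12 * G.l1 K + 5)) := by
  have hρ := hG.ρ_le hK
  have hL1 := hG.L1_le hK
  have hL2 := hG.L2_le hK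
  have hl := hG.l_le hK
  have hsub := hG.sub_q hK
  have hgK := hG.g_le K hK
  have hO := hG.lO_high K hK
  have hself : G.Near K K := ⟨hK, le_rfl, by omega⟩
  have hLF := hG.card_LF K K hself
  have hnear : (nearS G K).card ≤ 2 ^ G.l1 K := card_nearS.trans hgK
  have hr : ∀ {x y : ℕ}, x ≤ y → (range (2 ^ x)).card ≤ 2 ^ y := by
    intro x y h
    rw [card_range]
    exact Nat.pow_le_pow_right (by norm_num) h
  have hr2 : (range 2).card ≤ 2 ^ 1 := by simp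
  have hLF' : ∀ K' ∈ nearS G K, (G.LF K K').card ≤ 2 ^ G.E K := fun K' h =>
    hG.card_LF K K' (mem_nearS.mp h)
  set B := 2 ^ (G.E K + 12 * G.l1 K + 1) with hB
  have hbd : ∀ {P : Set (Finset ℕ)} {x : ℕ}, Few P x → x ≤ B → Few P B :=
    fun h hx => h.mono (fun _ h => h) hx
  have hpow : ∀ {x : ℕ}, x ≤ G.E K + 12 * G.l1 K + 1 → 2 ^ x ≤ B := fun h =>
    Nat.pow_le_pow_right (by norm_num) h
  have f1 : ∀ X : Finset ℕ, Few {Y | Y = X} (2 ^ 0) := fun X => by simpa using Few.single X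
  have key : Few (PP G D K) (B + (B + (B + (B + (B + (B + (B + (B + (B + (B + B)))))))))) := by
    unfold PP
    refine Few.union ?_ (Few.union ?_ (Few.union ?_ (Few.union ?_ (Few.union ?_ (Few.union ?_
      (Few.union ?_ (Few.union ?_ (Few.union ?_ (Few.union ?_ ?_)))))))))
    · refine hbd (Few.ex _ _ (hr hρ) fun b _ => Few.ex _ _
        (hr (y := 2 * G.l1 K) (by omega)) fun n _ => Few.ex _ _ (hr hL1) fun σ1 _ =>
        Few.ex _ _ (hr hL2) fun σ2 _ => f1 _) ?_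
      rw [← pow_add, ← pow_add, ← pow_add, ← pow_add]
      exact hpow (by omega)
    · refine hbd (Few.ex _ _ (hr hL1) fun n _ => f1 _) ?_
      rw [← pow_add]
      exact hpow (by omega)
    · refine hbd (Few.ex _ _ (hr hρ) fun b _ => Few.ex _ _
        (hr (y := 2 * G.l1 K + 1) (by omega)) fun n _ => f1 _) ?_
      rw [← pow_add, ← pow_add]
      exact hpow (by omega)
    · refine hbd (Few.ex _ _ hnear fun K' _ => Few.ex _ _ (hr le_rfl) fun b _ =>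
        Few.ex _ _ (hr hρ) fun n _ => f1 _) ?_
      rw [← pow_add, ← pow_add, ← pow_add]
      exact hpow (by omega)
    · refine hbd (Few.ex _ _ hnear fun K' _ => Few.ex _ _ (hr le_rfl) fun b _ =>
        Few.ex _ _ (hr (y := 3 * G.l1 K) (by omega)) fun n _ => f1 _) ?_
      rw [← pow_add, ← pow_add, ← pow_add]
      exact hpow (by omega)
    · refine hbd (Few.ex _ _ hnear fun K' hK' => Few.ex _ _ (hLF' K' hK') fun L _ =>
        Few.ex _ _ (hr hO) fun μ _ => Few.ex _ _ (hr hρ) fun n _ =>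
        Few.ex _ _ hr2 fun ε _ => f1 _) ?_
      rw [← pow_add, ← pow_add, ← pow_add, ← pow_add, ← pow_add]
      exact hpow (by omega)
    · refine hbd (Few.ex _ _ hnear fun K' hK' => Few.ex _ _ (hLF' K' hK') fun L _ =>
        Few.ex _ _ (hr hO) fun μ _ => Few.ex _ _ (hr (y := 3 * G.l1 K) (by omega)) fun n _ =>
        Few.ex _ _ hr2 fun ε _ => f1 _) ?_
      rw [← pow_add, ← pow_add, ← pow_add, ← pow_add, ← pow_add]
      exact hpow (by omega)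
    · refine hbd (Few.ex _ _ hnear fun K' hK' => Few.ex _ _ (hLF' K' hK') fun L _ =>
        Few.ex _ _ (hr hO) fun μ _ => Few.ex _ _ (hr hρ) fun n _ => f1 _) ?_
      rw [← pow_add, ← pow_add, ← pow_add, ← pow_add]
      exact hpow (by omega)
    · refine hbd (Few.ex _ _ hLF fun L _ =>
        Few.ex _ _ (hr hO) fun μ _ => Few.ex _ _ (hr hρ) fun n _ =>
        Few.ex _ _ (hr hρ) fun t0 _ => f1 _) ?_
      rw [← pow_add, ← pow_add, ← pow_add, ← pow_add]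
      exact hpow (by omega)
    · refine hbd (Few.ex _ _ hLF fun L _ =>
        Few.ex _ _ (hr hO) fun μ _ => Few.ex _ _ (hr hρ) fun n _ => f1 _) ?_
      rw [← pow_add, ← pow_add, ← pow_add]
      exact hpow (by omega)
    · refine hbd (Few.ex _ _ (hr hρ) fun b _ => Few.ex _ _ (hr hρ) fun n _ => f1 _) ?_
      rw [← pow_add, ← pow_add]
      exact hpow (by omega)
  refine key.mono (fun _ h => h) ?_
  have e1 : 2 ^ (G.E K + 12 * G.l1 K + 5) = 16 * B := by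
    rw [hB, show G.E K + 12 * G.l1 K + 5 = (G.E K + 12 * G.l1 K + 1) + 4 by omega, pow_add]
    ring
  rw [e1]
  omega

lemma few_PPY : Few (PPY G D K) (2 ^ (G.E K + 12 * G.l1 K + 5)) := by
  have hρ := hG.ρ_le hK
  have hO := hG.lO_high K hK
  have hself : G.Near K K := ⟨hK, le_rfl, by omega⟩
  have hLF := hG.card_LF K K hself
  have hr : ∀ {x y : ℕ}, x ≤ y → (range (2 ^ x)).card ≤ 2 ^ y := by
    intro x y h
    rw [card_range]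
    exact Nat.pow_le_pow_right (by norm_num) h
  set B := 2 ^ (G.E K + 12 * G.l1 K + 1) with hB
  have hbd : ∀ {P : Set (Finset ℕ)} {x : ℕ}, Few P x → x ≤ B → Few P B :=
    fun h hx => h.mono (fun _ h => h) hx
  have hpow : ∀ {x : ℕ}, x ≤ G.E K + 12 * G.l1 K + 1 → 2 ^ x ≤ B := fun h =>
    Nat.pow_le_pow_right (by norm_num) h
  have f1 : ∀ X : Finset ℕ, Few {Y | Y = X} (2 ^ 0) := fun X => by simpa using Few.single X
  have key : Few (PPY G D K) (B + B) := by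
    unfold PPY
    refine Few.union ?_ ?_
    · refine hbd (Few.ex _ _ hLF fun L _ =>
        Few.ex _ _ (hr hO) fun μ _ => Few.ex _ _ (hr hρ) fun n _ => f1 _) ?_
      rw [← pow_add, ← pow_add, ← pow_add]
      exact hpow (by omega)
    · refine hbd (Few.ex _ _ (hr hρ) fun b _ => Few.ex _ _ (hr hρ) fun n _ => f1 _) ?_
      rw [← pow_add, ← pow_add]
      exact hpow (by omega)
  refine key.mono (fun _ h => h) ?_
  have e1 : 2 ^ (G.E K + 12 * G.l1 K + 5) = 16 * B := by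
    rw [hB, show G.E K + 12 * G.l1 K + 5 = (G.E K + 12 * G.l1 K + 1) + 4 by omega, pow_add]
    ring
  rw [e1]
  omega

end few

end Pool.Agent.E3
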